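import Pool.Agent.H207.BT.Stm2
import Pool.Agent.H207.BT.Stm3

/-!
# Project BT: the recursion, real estimates assumed
-/

set_option autoImplicit false

open Topology Filter Metric Set MeasureTheory Polynomial

namespace Pool.Agent.H250.BT207

open Pool.Agent.H790R3.RB Pool.Agent.H211.HY Pool.Agent.H207.BT

theorem fin_min {ι : Type} [Finite ι] (t : ι → ℝ) (h : ∀ i, 0 < t i) :
    ∃ s > (0 : ℝ), ∀ i, s ≤ t i := by
  rcases isEmpty_or_nonempty ι with hi | hi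
  · exact ⟨1, one_pos, fun i => isEmptyElim i⟩
  · obtain ⟨i, hi⟩ := Finite.exists_min t
    exact ⟨t i, h i, hi⟩

theorem fin_max {ι : Type} [Finite ι] (t : ι → ℝ) : ∃ s ≥ (1 : ℝ), ∀ i, t i ≤ s := by
  rcases isEmpty_or_nonempty ι with hi | hi
  · exact ⟨1, le_refl _, fun i => isEmptyElim i⟩
  · obtain ⟨i, hi⟩ := Finite.exists_max t
    exact ⟨max 1 (t i), le_max_left _ _, fun j => (hi j).trans (le_max_right _ _)⟩

section

variable {k : ℕ} {f : Fin k → ℕ → (Fin k → ℂ) → ℂ → ℂ} {v : Fin k → (Fin k → ℂ) → ℂ}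
    {z : Fin k → ℕ → ℂ} {x : Fin k → ℕ → ℝ} {ρ C c μ : ℝ} {κ : Fin k → ℂ} {m : Fin k → ℕ}
    {RP : Fin k → ℕ → (Fin k → ℂ) → ℂ → Prop} {η B : ℝ}

theorem DD_zero (g : ℕ → (Fin k → ℂ) → ℂ → ℂ) (y : ℕ → ℂ) : ‖DD g y 0‖ = 1 := by
  simp [DD]

theorem DD_succ (g : ℕ → (Fin k → ℂ) → ℂ → ℂ) (y : ℕ → ℂ) (n : ℕ) :
    ‖DD g y (n + 1)‖ = ‖DD g y n‖ * ‖deriv (g n 0) (y n)‖ := by
  unfold DD
  rw [Finset.prod_range_succ, norm_mul]

theorem DD_step (hg : ∀ i, Good i (f i) (v i) (z i) (x i) ρ C c μ (κ i)) (i : Fin k) (n : ℕ) :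
    ‖DD (f i) (z i) (n + 1)‖ ≤ C * x i n * ‖DD (f i) (z i) n‖ := by
  rw [DD_succ, mul_comm]
  exact mul_le_mul_of_nonneg_right ((hg i).dx n).2 (norm_nonneg _)

theorem DD_le (hg : ∀ i, Good i (f i) (v i) (z i) (x i) ρ C c μ (κ i)) (i : Fin k) (n : ℕ) :
    ‖DD (f i) (z i) n‖ ≤ C ^ n := by
  have hC := (hg i).C1
  induction n with
  | zero => rw [DD_zero, pow_zero]
  | succ n ih =>
    refine (DD_step hg i n).trans ?_
    have h1 := (hg i).xx n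
    have h2 : C * x i n ≤ C := mul_le_of_le_one_right (by linarith) h1.2
    rw [pow_succ']
    exact mul_le_mul h2 ih (norm_nonneg _) (by linarith)

theorem mu_le (hg : ∀ i, Good i (f i) (v i) (z i) (x i) ρ C c μ (κ i)) (i : Fin k) : μ ≤ C := by
  by_contra hcon
  push Not at hcon
  have hC := (hg i).C1
  have hc := (hg i).c0
  have h1 : 1 < μ / C := by rwa [one_lt_div (by linarith)]
  obtain ⟨n, hn⟩ := pow_unbounded_of_one_lt (1 / c) h1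
  have h2 := ((hg i).gr n).trans (DD_le hg i n)
  have hCn : 0 < C ^ n := pow_pos (by linarith) n
  rw [div_pow, div_lt_div_iff₀ hc hCn] at hn
  linarith

theorem vt_mono {β β' K δ : ℝ} {i : Fin k} (hβ : β' ≤ β) (hδ : 0 < δ) (hδ1 : δ ≤ 1) (hK : 1 ≤ K)
    (h : VT z RP β' K i δ) : VT z RP β K i δ := by
  obtain ⟨w, h1, h2, h3, h4⟩ := h
  have h5 : δ ^ (1 + β) ≤ δ ^ (1 + β') :=
    Real.rpow_le_rpow_of_exponent_ge hδ hδ1 (by linarith)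
  have h6 : ball (0 : Fin k → ℂ) (δ ^ (1 + β) / K) ⊆ ball 0 (δ ^ (1 + β') / K) :=
    ball_subset_ball (div_le_div_of_nonneg_right h5 (by linarith))
  exact ⟨w, h5.trans h1, h2, fun s hs s' hs' => h3 s (h6 hs) s' (h6 hs'),
    fun s hs => h4 s (h6 hs)⟩

theorem base_one (S : Sett f v z x ρ C c μ κ m RP η B) {β δ₁ : ℝ} (hβ : 0 < β) (hδ₁ : 0 < δ₁)
    (hδ₁1 : δ₁ ≤ 1) (h8 : 8 * δ₁ ^ β ≤ 1) (j : ℕ) :
    ∃ K₁ ≥ (1 : ℝ), ∀ K ≥ K₁, ∀ (i : Fin k) (δ : ℝ), δ₁ / 2 ^ j ≤ δ → δ ≤ 2 * (δ₁ / 2 ^ j) →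
      δ ≤ δ₁ → VT z RP β K i δ := by
  have hε : 0 < δ₁ / 2 ^ j := by positivity
  have hε1 : δ₁ / 2 ^ j ≤ 1 :=
    (div_le_self hδ₁.le (one_le_pow₀ (by norm_num))).trans hδ₁1
  obtain ⟨ρ₁, hρ₁, L, H⟩ := S.far (δ₁ / 2 ^ j) hε hε1
  refine ⟨max 1 (max L (1 / ρ₁)), le_max_left _ _, ?_⟩
  intro K hK i δ h1 h2 h3
  have hK1 : 1 ≤ K := (le_max_left _ _).trans hK
  have hKL : L ≤ K := ((le_max_left _ _).trans (le_max_right _ _)).trans hK
  have hKρ : 1 / ρ₁ ≤ K := ((le_max_right _ _).trans (le_max_right _ _)).trans hK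
  have hδ : 0 < δ := hε.trans_le h1
  obtain ⟨q, hq1, hq2, hq3, hq4⟩ := H i 0
  have hpow : δ ^ (1 + β) = δ * δ ^ β := by rw [Real.rpow_add hδ, Real.rpow_one]
  have hβ1 : δ ^ β ≤ δ₁ ^ β := Real.rpow_le_rpow hδ.le h3 hβ.le
  have hδp : 0 ≤ δ ^ β := Real.rpow_nonneg hδ.le _
  have hA : δ ^ (1 + β) ≤ δ₁ / 2 ^ j / 4 := by
    rw [hpow]
    have h5 : δ * δ ^ β ≤ (2 * (δ₁ / 2 ^ j)) * (1 / 8) :=
      mul_le_mul h2 (by linarith) hδp (by positivity)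
    linarith
  have hball : ball (0 : Fin k → ℂ) (δ ^ (1 + β) / K) ⊆ ball 0 ρ₁ := by
    apply ball_subset_ball
    rw [div_le_iff₀ (by linarith)]
    rw [div_le_iff₀ hρ₁] at hKρ
    linarith [mul_comm K ρ₁]
  exact ⟨q, hA.trans hq2, hq3.trans h1, fun s hs s' hs' =>
    (hq1 s (hball hs) s' (hball hs')).trans (mul_le_mul_of_nonneg_right hKL (norm_nonneg _)),
    fun s hs => hq4 s (hball hs)⟩

theorem base_all (S : Sett f v z x ρ C c μ κ m RP η B) {β δ₁ : ℝ} (hβ : 0 < β) (hδ₁ : 0 < δ₁)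
    (hδ₁1 : δ₁ ≤ 1) (h8 : 8 * δ₁ ^ β ≤ 1) (J : ℕ) :
    ∃ K₁ ≥ (1 : ℝ), ∀ K ≥ K₁, ∀ (i : Fin k) (δ : ℝ), δ₁ / 2 ^ J ≤ δ → δ ≤ δ₁ →
      VT z RP β K i δ := by
  induction J with
  | zero =>
    obtain ⟨K₁, hK₁, H⟩ := base_one S hβ hδ₁ hδ₁1 h8 0
    refine ⟨K₁, hK₁, fun K hK i δ h1 h2 => H K hK i δ h1 ?_ h2⟩
    rw [pow_zero, div_one]
    linarith
  | succ J ih =>
    obtain ⟨K₁, hK₁, H⟩ := base_one S hβ hδ₁ hδ₁1 h8 (J + 1)
    obtain ⟨K₂, hK₂, H2⟩ := ih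
    refine ⟨max K₁ K₂, hK₁.le.trans (le_max_left _ _), fun K hK i δ h1 h2 => ?_⟩
    rcases le_total (δ₁ / 2 ^ J) δ with h3 | h3
    · exact H2 K ((le_max_right _ _).trans hK) i δ h3 h2
    · refine H K ((le_max_left _ _).trans hK) i δ h1 ?_ h2
      have h4 : 2 * (δ₁ / 2 ^ (J + 1)) = δ₁ / 2 ^ J := by
        rw [pow_succ]
        field_simp
      rw [h4]
      exact h3

theorem pull_unif (h1 : S_PULL) (hg : ∀ i, Good i (f i) (v i) (z i) (x i) ρ C c μ (κ i)) :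
    ∃ K₀ ≥ (1 : ℝ), ∃ θ > (0 : ℝ), ∃ r₀ > (0 : ℝ), ∃ N₀ : ℕ, ∀ (i : Fin k) (δ : ℝ) (N : ℕ),
      0 < δ → δ ≤ r₀ → N₀ ≤ N →
      ∑ n ∈ Finset.range N, δ * ‖DD (f i) (z i) n‖ / x i n ≤ θ →
        ∀ (u : (Fin k → ℂ) → ℂ) (r Λ : ℝ), 0 < r → 0 ≤ Λ → K₀ * r ≤ δ →
          K₀ * Λ * r ≤ δ * ‖DD (f i) (z i) N‖ →
          (∀ s ∈ ball (0 : Fin k → ℂ) r, ∀ s' ∈ ball (0 : Fin k → ℂ) r,
            ‖u s - u s'‖ ≤ Λ * ‖s - s'‖) →
          K₀ * ‖u 0 - z i N‖ ≤ δ * ‖DD (f i) (z i) N‖ →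
          ∃ w : (Fin k → ℂ) → ℂ,
            (∀ s ∈ ball (0 : Fin k → ℂ) r, ∀ s' ∈ ball (0 : Fin k → ℂ) r,
              ‖w s - w s'‖ ≤ (K₀ + K₀ * Λ / ‖DD (f i) (z i) N‖) * ‖s - s'‖) ∧
            ‖u 0 - z i N‖ ≤ K₀ * ‖DD (f i) (z i) N‖ * ‖w 0 - z i 0‖ ∧
            ‖DD (f i) (z i) N‖ * ‖w 0 - z i 0‖ ≤ K₀ * ‖u 0 - z i N‖ ∧
            ∀ s ∈ ball (0 : Fin k → ℂ) r, YY (f i) w N s = u s ∧
              ∀ n < N, ‖YY (f i) w n s - z i n‖ < ρ ∧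
                ‖s‖ + ‖YY (f i) w n s - z i n‖ ≤ x i n / (2 * C) := by
  choose K hK θ hθ r hr N₀ H using fun i =>
    h1 k i (f i) (v i) (z i) (x i) ρ C c μ (κ i) (hg i)
  obtain ⟨K₀, hK₀, hKm⟩ := fin_max K
  obtain ⟨θ₀, hθ₀, hθm⟩ := fin_min θ hθ
  obtain ⟨r₀, hr₀, hrm⟩ := fin_min r hr
  refine ⟨K₀, hK₀, θ₀, hθ₀, r₀, hr₀, Finset.univ.sup N₀, ?_⟩
  intro i δ N hδ hδr hN hs u r' Λ hr' hΛ e1 e2 e3 e4
  have hKi := hKm i
  obtain ⟨w, hw1, hw2, hw3, hw4⟩ := H i δ N hδ (hδr.trans (hrm i))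
    ((Finset.le_sup (f := N₀) (Finset.mem_univ i)).trans hN) (hs.trans (hθm i)) u r' Λ hr' hΛ
    ((mul_le_mul_of_nonneg_right hKi hr'.le).trans e1)
    ((mul_le_mul_of_nonneg_right (mul_le_mul_of_nonneg_right hKi hΛ) hr'.le).trans e2) e3
    ((mul_le_mul_of_nonneg_right hKi (norm_nonneg _)).trans e4)
  refine ⟨w, fun s hs s' hs' => (hw1 s hs s' hs').trans ?_, hw2.trans ?_, hw3.trans ?_, hw4⟩
  · refine mul_le_mul_of_nonneg_right (add_le_add hKi ?_) (norm_nonneg _)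
    exact div_le_div_of_nonneg_right (mul_le_mul_of_nonneg_right hKi hΛ) (norm_nonneg _)
  · exact mul_le_mul_of_nonneg_right (mul_le_mul_of_nonneg_right hKi (norm_nonneg _))
      (norm_nonneg _)
  · exact mul_le_mul_of_nonneg_right hKi (norm_nonneg _)

theorem scale_unif (h2 : S_SCALE3) (hg : ∀ i, Good i (f i) (v i) (z i) (x i) ρ C c μ (κ i))
    (α : ℝ) (hα : 0 < α) (θ : ℝ) (hθ : 0 < θ) (A : ℝ) (hA : 0 < A) :
    ∃ ε > (0 : ℝ), ∃ r₀ > (0 : ℝ), ∀ (i : Fin k) (r : ℝ), 0 < r → r ≤ r₀ →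
      ∃ r' : ℝ, r ^ (1 + α) ≤ r' ∧ r' ≤ r ∧ ∃ N : ℕ,
        ∑ n ∈ Finset.range N, r' * ‖DD (f i) (z i) n‖ / x i n ≤ θ ∧
        (ε ≤ r' * ‖DD (f i) (z i) N‖ ∨ A * x i N ≤ r' * ‖DD (f i) (z i) N‖) := by
  choose ε hε r hr H using fun i =>
    h2 C c μ (fun n => ‖DD (f i) (z i) n‖) (x i) (hg i).C1 (hg i).c0 (hg i).μ1 (DD_zero _ _)
      (hg i).gr (hg i).xx (DD_step hg i) α hα θ hθ A hA
  obtain ⟨ε₀, hε₀, hεm⟩ := fin_min ε hε
  obtain ⟨r₀, hr₀, hrm⟩ := fin_min r hr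
  refine ⟨ε₀, hε₀, r₀, hr₀, ?_⟩
  intro i s hs hsr
  obtain ⟨r', e1, e2, N, e3, e4⟩ := H i s hs (hsr.trans (hrm i))
  exact ⟨r', e1, e2, N, e3, e4.imp (fun h => (hεm i).trans h) id⟩

theorem step (h1 : S_PULL) (h2 : S_SCALE3) (h3 : S_REAL1)
    (S : Sett f v z x ρ C c μ κ m RP η B) (i₀ : Fin k) {β δ₁ : ℝ} (hβ : 0 < β)
    (hβ' : β * Real.log C ≤ Real.log μ / 16) (hδ₁ : 0 < δ₁) (hδ₁1 : δ₁ ≤ 1) :
    ∃ δb > (0 : ℝ), ∃ K₁ ≥ (1 : ℝ), ∀ K ≥ K₁, ∀ δ : ℝ, 0 < δ → δ < δb →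
      (∀ (i : Fin k) (δ'' : ℝ), 2 * δ ≤ δ'' → δ'' ≤ δ₁ → VT z RP β K i δ'') →
      ∀ i : Fin k, VT z RP β K i δ := by
  have hC1 := (S.good i₀).C1
  have hc0 := (S.good i₀).c0
  have hμ1 := (S.good i₀).μ1
  have hρ0 := (S.good i₀).ρ0
  have hμC : μ ≤ C := mu_le S.good i₀
  have hB := S.B1
  have hη := S.η0
  obtain ⟨K₀, hK₀, θ, hθ, r₀, hr₀, N₀, HP⟩ := pull_unif h1 S.good
  have hKB : 1 ≤ K₀ * B := one_le_mul_of_one_le_of_one_le hK₀ hB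
  have hA0 : 0 < 2 * K₀ * B := by nlinarith
  obtain ⟨ε', hε', r₁, hr₁, HS⟩ := scale_unif h2 S.good (β / 8) (by linarith) (min θ (1 / C))
    (lt_min hθ (by positivity)) (2 * K₀ * B) hA0
  obtain ⟨ε₀, hε₀, hε₀', hε₀η, hε₀1⟩ : ∃ ε₀ > (0 : ℝ), ε₀ ≤ ε' ∧ ε₀ ≤ η ∧ ε₀ ≤ 1 :=
    ⟨min ε' (min η 1), lt_min hε' (lt_min hη one_pos), min_le_left _ _,
      (min_le_right _ _).trans (min_le_left _ _), (min_le_right _ _).trans (min_le_right _ _)⟩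
  obtain ⟨ρ₁, hρ₁, L', HF⟩ := S.far (ε₀ / K₀) (by positivity)
    ((div_le_self hε₀.le hK₀).trans hε₀1)
  obtain ⟨L, hL0, hL'⟩ : ∃ L : ℝ, 0 ≤ L ∧ L' ≤ L := ⟨max L' 0, le_max_right _ _, le_max_left _ _⟩
  obtain ⟨M, hM⟩ : ∃ M : ℕ, ∀ i, m i ≤ M :=
    ⟨∑ i, m i, fun i => Finset.single_le_sum (fun j _ => Nat.zero_le _) (Finset.mem_univ i)⟩
  obtain ⟨δb₁, hδb₁, HR⟩ := h3 C c μ B K₀ β δ₁ M hc0 hμ1 hμC hB hK₀ hβ hβ' hδ₁ hδ₁1
  obtain ⟨ξ, hξ, Hξ⟩ := fin_min (fun t : Fin k × Fin N₀ => x t.1 t.2)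
    (fun t => ((S.good t.1).xx t.2).1)
  obtain ⟨e₂, he₂⟩ : ∃ e₂, e₂ = ε₀ / (4 * K₀ ^ 2) := ⟨_, rfl⟩
  have he₂0 : 0 < e₂ := by rw [he₂]; positivity
  obtain ⟨δa, hδa0, hδa⟩ : ∃ δa > (0 : ℝ), ∀ δ : ℝ, 0 < δ → δ ≤ δa → δ ^ (7 * β / 8) ≤ e₂ := by
    refine ⟨e₂ ^ (1 / (7 * β / 8)), Real.rpow_pos_of_pos he₂0 _, fun δ hδ hle => ?_⟩
    calc δ ^ (7 * β / 8) ≤ (e₂ ^ (1 / (7 * β / 8))) ^ (7 * β / 8) :=
          Real.rpow_le_rpow hδ.le hle (by positivity)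
      _ = e₂ := by
          rw [← Real.rpow_mul he₂0.le, one_div_mul_cancel (by positivity), Real.rpow_one]
  have hCN : 0 < C ^ N₀ := pow_pos (by linarith) _
  obtain ⟨δb, hδb0, hb1, hb2, hb3, hb4, hb5, hb6, hb7⟩ : ∃ δb > (0 : ℝ), δb ≤ 1 ∧ δb ≤ r₀ ∧
      δb ≤ r₁ ∧ δb ≤ δb₁ ∧ δb ≤ δa ∧ δb * C ^ N₀ ≤ ε₀ ∧ δb * C ^ N₀ ≤ 2 * K₀ * B * ξ := by
    obtain ⟨s, hs, H⟩ := fin_min (fun t : Fin 7 => ![1, r₀, r₁, δb₁, δa, ε₀ / C ^ N₀,
      2 * K₀ * B * ξ / C ^ N₀] t) (by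
        intro t
        fin_cases t
        · exact one_pos
        · exact hr₀
        · exact hr₁
        · exact hδb₁
        · exact hδa0
        · exact div_pos hε₀ hCN
        · exact div_pos (mul_pos hA0 hξ) hCN)
    exact ⟨s, hs, H 0, H 1, H 2, H 3, H 4, (le_div_iff₀ hCN).1 (H 5), (le_div_iff₀ hCN).1 (H 6)⟩
  have t1 : 0 ≤ K₀ * L / ε₀ := by positivity
  have t2 : 0 ≤ K₀ * L / c := by positivity
  have t3 : 0 < 1 / ρ₁ := by positivity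
  have t4 : 0 < 1 / ρ := by positivity
  refine ⟨δb, hδb0, 2 * K₀ + K₀ * L / ε₀ + K₀ * L / c + 1 / ρ₁ + 1 / ρ, by
    show (1 : ℝ) ≤ _
    linarith, ?_⟩
  intro K hK δ hδ hδb IH i
  have hK' : 2 * K₀ + K₀ * L / ε₀ + K₀ * L / c + 1 / ρ₁ + 1 / ρ ≤ K := hK
  have hK1 : 1 ≤ K := by linarith
  have hK0 : 0 < K := by linarith
  have hδ1 : δ ≤ 1 := by linarith
  -- the radius
  obtain ⟨r, hr⟩ : ∃ r, r = δ ^ (1 + β) / K := ⟨_, rfl⟩
  have hpow0 : 0 < δ ^ (1 + β) := Real.rpow_pos_of_pos hδ _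
  have hpow1 : δ ^ (1 + β) ≤ 1 := Real.rpow_le_one hδ.le hδ1 (by linarith)
  have hr0 : 0 < r := by rw [hr]; positivity
  have hKr : K * r = δ ^ (1 + β) := by rw [hr]; field_simp
  have hrK : ∀ a : ℝ, 0 < a → 1 / a ≤ K → r ≤ a := by
    intro a ha h
    rw [div_le_iff₀ ha] at h
    rw [hr, div_le_iff₀ hK0]
    linarith [mul_comm K a]
  have hrρ₁ : r ≤ ρ₁ := hrK ρ₁ hρ₁ (by linarith)
  have hrρ : r ≤ ρ := hrK ρ hρ0 (by linarith)
  -- the scale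
  obtain ⟨δ', hd1, hd2, N, hsum, halt⟩ := HS i δ hδ (by linarith)
  have hδ'0 : 0 < δ' := lt_of_lt_of_le (Real.rpow_pos_of_pos hδ _) hd1
  obtain ⟨P, hP⟩ : ∃ P, P = ‖DD (f i) (z i) N‖ := ⟨_, rfl⟩
  rw [← hP] at halt
  have hPc : c * μ ^ N ≤ P := by rw [hP]; exact (S.good i).gr N
  have hcP : c ≤ P := by
    refine le_trans ?_ hPc
    exact le_mul_of_one_le_right hc0.le (one_le_pow₀ hμ1.le)
  have hP0 : 0 < P := hc0.trans_le hcP
  have hPC : P ≤ C ^ N := by rw [hP]; exact DD_le S.good i N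
  have hpowβ : δ ^ (1 + β) ≤ δ ^ (1 + β / 8) :=
    Real.rpow_le_rpow_of_exponent_ge hδ hδ1 (by linarith)
  have hKr' : K₀ * r ≤ δ' := by
    calc K₀ * r ≤ K * r := mul_le_mul_of_nonneg_right (by linarith) hr0.le
      _ = δ ^ (1 + β) := hKr
      _ ≤ δ ^ (1 + β / 8) := hpowβ
      _ ≤ δ' := hd1
  have hR1 : δ' * P ≤ 1 := by
    rcases Nat.eq_zero_or_pos N with h0 | h0
    · rw [hP, h0, DD_zero, mul_one]
      linarith
    · obtain ⟨n, rfl⟩ : ∃ n, N = n + 1 := ⟨N - 1, by omega⟩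
      have hx := (S.good i).xx n
      have e1 : δ' * ‖DD (f i) (z i) n‖ / x i n ≤ 1 / C := by
        refine le_trans ?_ (hsum.trans (min_le_right _ _))
        exact Finset.single_le_sum (f := fun n => δ' * ‖DD (f i) (z i) n‖ / x i n)
          (fun j _ => div_nonneg (mul_nonneg hδ'0.le (norm_nonneg _)) ((S.good i).xx j).1.le)
          (Finset.mem_range.2 (Nat.lt_succ_self n))
      rw [div_le_div_iff₀ hx.1 (by linarith)] at e1
      have e2 := DD_step S.good i n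
      rw [← hP] at e2
      calc δ' * P ≤ δ' * (C * x i n * ‖DD (f i) (z i) n‖) :=
            mul_le_mul_of_nonneg_left e2 hδ'0.le
        _ = (δ' * ‖DD (f i) (z i) n‖ * C) * x i n := by ring
        _ ≤ (1 * x i n) * x i n := mul_le_mul_of_nonneg_right e1 hx.1.le
        _ ≤ (1 * 1) * 1 := mul_le_mul (mul_le_mul_of_nonneg_left hx.2 zero_le_one) hx.2 hx.1.le
            (by norm_num)
        _ = 1 := by norm_num
  have hNN : N₀ ≤ N := by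
    by_contra hcon
    push Not at hcon
    have e1 : δ' * P ≤ δ * C ^ N₀ := by
      refine mul_le_mul hd2 (hPC.trans (pow_le_pow_right₀ hC1 hcon.le)) hP0.le hδ.le
    have e2 : δ * C ^ N₀ < δb * C ^ N₀ := mul_lt_mul_of_pos_right hδb hCN
    rcases halt with h | h
    · linarith
    · have e3 := Hξ (i, ⟨N, hcon⟩)
      simp only at e3
      have e4 : 2 * K₀ * B * ξ ≤ 2 * K₀ * B * x i N := mul_le_mul_of_nonneg_left e3 hA0.le
      linarith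
  -- the final part
  have fin : ∀ (u : (Fin k → ℂ) → ℂ) (Λ : ℝ), 0 ≤ Λ → K₀ * Λ * r ≤ δ' * P →
      (∀ s ∈ ball (0 : Fin k → ℂ) r, ∀ s' ∈ ball (0 : Fin k → ℂ) r,
        ‖u s - u s'‖ ≤ Λ * ‖s - s'‖) →
      K₀ * ‖u 0 - z i N‖ ≤ δ' * P → K₀ + K₀ * Λ / P ≤ K →
      (∀ s ∈ ball (0 : Fin k → ℂ) r, RP i N s (u s)) →
      δ ^ (1 + β) * (K₀ * P) ≤ ‖u 0 - z i N‖ → VT z RP β K i δ := by
    intro u Λ hΛ g1 g2 g3 g4 g5 g6
    rw [hP] at g1 g3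
    obtain ⟨w, hw1, hw2, hw3, hw4⟩ := HP i δ' N hδ'0 (by linarith) hNN
      (hsum.trans (min_le_left _ _)) u r Λ hr0 hΛ hKr' g1 g2 g3
    rw [← hP] at hw1 hw2 hw3 g3
    refine ⟨w, ?_, ?_, ?_, ?_⟩
    · have e1 : δ ^ (1 + β) * (K₀ * P) ≤ ‖w 0 - z i 0‖ * (K₀ * P) := by linarith
      exact le_of_mul_le_mul_right e1 (by positivity)
    · have e1 : ‖w 0 - z i 0‖ * P ≤ δ' * P := by linarith
      exact (le_of_mul_le_mul_right e1 hP0).trans hd2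
    · rw [← hr]
      intro s hs s' hs'
      exact (hw1 s hs s' hs').trans (mul_le_mul_of_nonneg_right g4 (norm_nonneg _))
    · rw [← hr]
      intro s hs
      obtain ⟨e1, e2⟩ := hw4 s hs
      refine S.tran i N s w ?_ e2 ?_
      · rw [mem_ball_zero_iff] at hs
        linarith
      · rw [e1]
        exact g5 s hs
  by_cases hfar : ε₀ ≤ δ' * P
  · -- far
    obtain ⟨q, hq1, hq2, hq3, hq4⟩ := HF i N
    have hsub : ball (0 : Fin k → ℂ) r ⊆ ball 0 ρ₁ := ball_subset_ball hrρ₁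
    have hr1 : r ≤ 1 / K := by rw [hr]; exact div_le_div_of_nonneg_right hpow1 hK0.le
    refine fin q L hL0 ?_ ?_ ?_ ?_ ?_ ?_
    · refine le_trans ?_ hfar
      have e1 : K₀ * L ≤ K * ε₀ := by
        have : K₀ * L / ε₀ ≤ K := by linarith
        rwa [div_le_iff₀ hε₀] at this
      calc K₀ * L * r ≤ K * ε₀ * r := mul_le_mul_of_nonneg_right e1 hr0.le
        _ = ε₀ * (K * r) := by ring
        _ ≤ ε₀ * 1 := mul_le_mul_of_nonneg_left (by rw [hKr]; exact hpow1) hε₀.le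
        _ = ε₀ := mul_one _
    · intro s hs s' hs'
      exact (hq1 s (hsub hs) s' (hsub hs')).trans (mul_le_mul_of_nonneg_right hL' (norm_nonneg _))
    · refine le_trans ?_ hfar
      calc K₀ * ‖q 0 - z i N‖ ≤ K₀ * (ε₀ / K₀) := mul_le_mul_of_nonneg_left hq3 (by linarith)
        _ = ε₀ := by field_simp
    · have e1 : K₀ * L / P ≤ K₀ * L / c :=
        div_le_div_of_nonneg_left (by positivity) hc0 hcP
      linarith
    · exact fun s hs => hq4 s (hsub hs)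
    · refine le_trans ?_ hq2
      have e1 : δ ^ (1 + β) = δ ^ (1 + β / 8) * δ ^ (7 * β / 8) := by
        rw [← Real.rpow_add hδ]
        congr 1
        ring
      have e2 : δ ^ (7 * β / 8) ≤ e₂ := hδa δ hδ (by linarith)
      calc δ ^ (1 + β) * (K₀ * P) = δ ^ (1 + β / 8) * P * (δ ^ (7 * β / 8) * K₀) := by
            rw [e1]; ring
        _ ≤ 1 * (e₂ * K₀) := by
            refine mul_le_mul ?_ (mul_le_mul_of_nonneg_right e2 (by linarith))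
              (by positivity) zero_le_one
            exact (mul_le_mul_of_nonneg_right hd1 hP0.le).trans hR1
        _ = ε₀ / K₀ / 4 := by
            rw [he₂]
            field_simp
  · -- close
    push Not at hfar
    have hx : 2 * K₀ * B * x i N ≤ δ' * P := by
      rcases halt with h | h
      · linarith
      · exact h
    have hxN := (S.good i).xx N
    have hR0 : 0 < δ' * P := mul_pos hδ'0 hP0
    have hA1 : 1 ≤ 2 * K₀ * B := by linarith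
    have hRA : δ' * P / (2 * K₀ * B) ≤ δ' * P := div_le_self hR0.le hA1
    have hxR : x i N ≤ δ' * P / (2 * K₀ * B) := by
      rw [le_div_iff₀ hA0]
      linarith
    obtain ⟨l, hl1, hl2⟩ := S.close i N (by linarith)
    have hml := S.mpos l
    have hreal : c * μ ^ (N + 1) ≤ B * ((δ' * P) / (2 * K₀ * B)) ^ m l * P := by
      refine ((S.good i).gr (N + 1)).trans (hl1.trans ?_)
      rw [← hP]
      refine mul_le_mul_of_nonneg_right (mul_le_mul_of_nonneg_left ?_ (by linarith)) hP0.le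
      exact pow_le_pow_left₀ hxN.1.le hxR _
    obtain ⟨y, hy⟩ : ∃ y, y = min ((δ' * P) / (2 * K₀ * B)) (δ₁ ^ ((1 : ℝ) / ((m l : ℝ) + 1))) :=
      ⟨_, rfl⟩
    obtain ⟨hy0, hy1, hy2, hy3⟩ := HR δ δ' P N (m l) hδ (by linarith) hd1 hd2 hml (hM l) hP0 hPC
      hR1 hreal y hy
    have hyR : y ≤ δ' * P / (2 * K₀ * B) := by rw [hy]; exact min_le_left _ _
    have hδ'' : 0 < y ^ (m l + 1) := pow_pos hy0 _
    have hKBδ : 0 < K₀ * B * δ := by positivity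
    have hexp : (2 + K₀ * B) * δ = 2 * δ + K₀ * B * δ := by ring
    rw [hexp] at hy1
    have hdd1 : 2 * δ ≤ y ^ (m l + 1) := by linarith only [hy1, hKBδ]
    have hdd2 : K₀ * B * δ ≤ y ^ (m l + 1) := by linarith only [hy1, hδ]
    have hdd3 : δ ≤ y ^ (m l + 1) := by linarith only [hdd1, hδ]
    obtain ⟨w'', hv1, hv2, hv3, hv4⟩ := IH l (y ^ (m l + 1)) hdd1 hy2
    obtain ⟨n, hn⟩ : ∃ n : ℝ, n = ‖w'' 0 - z l 0‖ := ⟨_, rfl⟩
    rw [← hn] at hv1 hv2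
    have hn0 : 0 < n := lt_of_lt_of_le (Real.rpow_pos_of_pos hδ'' _) hv1
    obtain ⟨y', hy'⟩ : ∃ y', y' = n ^ ((1 : ℝ) / ((m l : ℝ) + 1)) := ⟨_, rfl⟩
    have hy'0 : 0 < y' := by rw [hy']; exact Real.rpow_pos_of_pos hn0 _
    have hmr : (0 : ℝ) < (m l : ℝ) + 1 := by positivity
    have hy'n : y' ^ (m l + 1) = n := by
      rw [hy', ← Real.rpow_natCast, ← Real.rpow_mul hn0.le]
      push_cast
      rw [one_div_mul_cancel hmr.ne', Real.rpow_one]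
    have hy'le : y' ≤ y := by
      have e1 : y' ^ (m l + 1) ≤ y ^ (m l + 1) := by rw [hy'n]; exact hv2
      exact (pow_le_pow_iff_left₀ hy'0.le hy0.le (by omega)).1 e1
    have hy'ge : y ^ (1 + β) ≤ y' := by
      have e1 : (y ^ (1 + β)) ^ (m l + 1) ≤ y' ^ (m l + 1) := by
        rw [hy'n]
        refine le_trans (le_of_eq ?_) hv1
        rw [← Real.rpow_natCast (y ^ (1 + β)), ← Real.rpow_natCast y, ← Real.rpow_mul hy0.le,
          ← Real.rpow_mul hy0.le, mul_comm]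
      exact (pow_le_pow_iff_left₀ (Real.rpow_nonneg hy0.le _) hy'0.le (by omega)).1 e1
    obtain ⟨hz1, hz2⟩ := hy3 y' hy'ge hy'le
    have hy'R : y' ≤ δ' * P / (2 * K₀ * B) := hy'le.trans hyR
    have hbig : K₀ * B * δ ^ (1 + β) ≤ n := by
      refine le_trans ?_ hv1
      calc K₀ * B * δ ^ (1 + β) ≤ (K₀ * B) ^ (1 + β) * δ ^ (1 + β) := by
            refine mul_le_mul_of_nonneg_right ?_ hpow0.le
            calc K₀ * B = (K₀ * B) ^ (1 : ℝ) := (Real.rpow_one _).symm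
              _ ≤ (K₀ * B) ^ (1 + β) := Real.rpow_le_rpow_of_exponent_le hKB (by linarith)
        _ = (K₀ * B * δ) ^ (1 + β) := (Real.mul_rpow (by linarith) hδ.le).symm
        _ ≤ (y ^ (m l + 1)) ^ (1 + β) := Real.rpow_le_rpow hKBδ.le hdd2 (by linarith)
    have hBKr : B * K * r ≤ y' ^ (m l + 1) := by
      rw [hy'n, mul_assoc, hKr]
      refine le_trans ?_ hbig
      rw [mul_assoc]
      exact le_mul_of_one_le_left (by positivity) hK₀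
    have hsub : ball (0 : Fin k → ℂ) r ⊆ ball 0 ((y ^ (m l + 1)) ^ (1 + β) / K) := by
      apply ball_subset_ball
      rw [hr]
      exact div_le_div_of_nonneg_right (Real.rpow_le_rpow hδ.le hdd3 (by linarith)) hK0.le
    obtain ⟨q, hq1, hq2, hq3, hq4⟩ := hl2 w'' y' r K hy'0 (by linarith) (by rw [hy'n, hn]) hr0
      hK1 hBKr (fun s hs s' hs' => hv3 s (hsub hs) s' (hsub hs')) (fun s hs => hv4 s (hsub hs))
    have hym : 0 < y' ^ m l := pow_pos hy'0 _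
    refine fin q (B * K / y' ^ m l) (by positivity) ?_ ?_ ?_ ?_ hq4 ?_
    · have e1 : K₀ * (B * K / y' ^ m l) * r = K₀ * B * (K * r) / y' ^ m l := by ring
      rw [e1, hKr, div_le_iff₀ hym]
      refine hbig.trans ?_
      rw [← hy'n, pow_succ, mul_comm]
      exact mul_le_mul_of_nonneg_right (hy'R.trans hRA) hym.le
    · intro s hs s' hs'
      have e1 := hq3 s hs s' hs'
      rw [div_mul_eq_mul_div, le_div_iff₀ hym]
      linarith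
    · have e1 : K₀ * ‖q 0 - z i N‖ ≤ K₀ * (B * (y' + x i N)) :=
        mul_le_mul_of_nonneg_left hq1 (by linarith)
      have e2 : K₀ * (B * (y' + x i N)) ≤ K₀ * (B * (δ' * P / (2 * K₀ * B) + δ' * P / (2 * K₀ * B)))
          := by
        refine mul_le_mul_of_nonneg_left (mul_le_mul_of_nonneg_left ?_ (by linarith)) (by linarith)
        linarith
      have e3 : K₀ * (B * (δ' * P / (2 * K₀ * B) + δ' * P / (2 * K₀ * B))) = δ' * P := by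
        have hB0 : B ≠ 0 := by positivity
        have hK00 : K₀ ≠ 0 := by positivity
        field_simp
        ring
      linarith
    · have e1 : K₀ * (B * K / y' ^ m l) / P = K₀ * B * K / (y' ^ m l * P) := by
        field_simp
      have e2 : K₀ * B * K / (y' ^ m l * P) ≤ K / 2 := by
        rw [div_le_iff₀ (mul_pos hym hP0)]
        have e3 := mul_le_mul_of_nonneg_left hz1 (half_pos hK0).le
        have e4 : K / 2 * (2 * K₀ * B) = K₀ * B * K := by ring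
        linarith only [e3, e4]
      rw [e1]
      linarith
    · have hBKP : 0 < B * K₀ * P := by positivity
      rw [le_div_iff₀ hBKP] at hz2
      have e1 : B * (δ ^ (1 + β) * (K₀ * P)) ≤ B * ‖q 0 - z i N‖ := by
        calc B * (δ ^ (1 + β) * (K₀ * P)) = δ ^ (1 + β) * (B * K₀ * P) := by ring
          _ ≤ y' := hz2
          _ ≤ _ := hq2
      exact le_of_mul_le_mul_left e1 (by linarith)

end

/-- **The recursion**, real estimates assumed. -/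
theorem t_VTR (h1 : S_PULL) (h2 : S_SCALE3) (h3 : S_REAL1) : S_VT := by
  intro k f v z x ρ C c μ κ m RP η B S β₀ hβ₀
  rcases isEmpty_or_nonempty (Fin k) with hk | hk
  · exact ⟨1, one_pos, 1, le_refl _, fun i => isEmptyElim i⟩
  obtain ⟨i₀⟩ := hk
  have hC1 := (S.good i₀).C1
  have hμ1 := (S.good i₀).μ1
  have hμC : μ ≤ C := mu_le S.good i₀
  have hlC : 0 < Real.log C := Real.log_pos (by linarith)
  have hlμ : 0 < Real.log μ := Real.log_pos hμ1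
  obtain ⟨β, hβ, hββ₀, hβ'⟩ : ∃ β > (0 : ℝ), β ≤ β₀ ∧ β * Real.log C ≤ Real.log μ / 16 := by
    refine ⟨min β₀ (Real.log μ / 16 / Real.log C), lt_min hβ₀ (by positivity), min_le_left _ _, ?_⟩
    rw [← le_div_iff₀ hlC]
    exact min_le_right _ _
  obtain ⟨δ₁, hδ₁, hδ₁1, h8⟩ : ∃ δ₁ > (0 : ℝ), δ₁ ≤ 1 ∧ 8 * δ₁ ^ β ≤ 1 := by
    refine ⟨(1 / 8 : ℝ) ^ (1 / β), by positivity,
      Real.rpow_le_one (by norm_num) (by norm_num) (by positivity), ?_⟩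
    rw [← Real.rpow_mul (by norm_num), one_div_mul_cancel hβ.ne', Real.rpow_one]
    norm_num
  obtain ⟨δb, hδb, K₁, hK₁, HS⟩ := step h1 h2 h3 S i₀ hβ hβ' hδ₁ hδ₁1
  obtain ⟨J, hJ⟩ : ∃ J : ℕ, δ₁ / 2 ^ J ≤ δb := by
    obtain ⟨J, hJ⟩ := pow_unbounded_of_one_lt (δ₁ / δb) (one_lt_two (α := ℝ))
    refine ⟨J, ?_⟩
    rw [div_lt_iff₀ hδb] at hJ
    rw [div_le_iff₀ (by positivity)]
    linarith
  obtain ⟨K₂, hK₂, HB⟩ := base_all S hβ hδ₁ hδ₁1 h8 J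
  have hK : 1 ≤ max K₁ K₂ := le_trans hK₁ (le_max_left _ _)
  refine ⟨δ₁, hδ₁, max K₁ K₂, hK, ?_⟩
  have key : ∀ n : ℕ, ∀ (i : Fin k) (δ : ℝ), δb / 2 ^ n ≤ δ → δ ≤ δ₁ →
      VT z RP β (max K₁ K₂) i δ := by
    intro n
    induction n with
    | zero =>
      intro i δ e1 e2
      rw [pow_zero, div_one] at e1
      exact HB _ (le_max_right _ _) i δ (hJ.trans e1) e2
    | succ n ih =>
      intro i δ e1 e2
      rcases le_or_gt δb δ with h | h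
      · exact HB _ (le_max_right _ _) i δ (hJ.trans h) e2
      · have hδ : 0 < δ := lt_of_lt_of_le (by positivity) e1
        refine HS _ (le_max_left _ _) δ hδ h (fun l δ'' e3 e4 => ih l δ'' ?_ e4) i
        have e5 : δb / 2 ^ n = 2 * (δb / 2 ^ (n + 1)) := by
          rw [pow_succ]
          field_simp
        rw [e5]
        linarith
  intro i δ hδ hδ1
  obtain ⟨n, hn⟩ := pow_unbounded_of_one_lt (δb / δ) (one_lt_two (α := ℝ))
  refine vt_mono hββ₀ hδ (hδ1.trans hδ₁1) hK (key n i δ ?_ hδ1)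
  rw [div_lt_iff₀ hδ] at hn
  rw [div_le_iff₀ (by positivity)]
  linarith

end Pool.Agent.H250.BT207
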