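import Pool.Agent.H207.BT.Stm5

/-!
# Project BT: a repelling periodic point outside the critical orbits
-/

set_option autoImplicit false

open Topology Filter Metric Set MeasureTheory Polynomial

namespace Pool.Agent.H250.BT207

open Pool.Agent.H790R3.RB Pool.Agent.H211.HY Pool.Agent.H207.BT

/-- An orbit which hits a periodic direction consists of finitely many directions. -/
theorem orb_fin {d : ℕ} {x : CV d} (hx : ND x) {q ξ : ℂ × ℂ} (hq : q ≠ 0) (hξ : ξ ≠ 0)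
    {n₀ j₀ : ℕ} (hn₀ : 0 < n₀) (hper : cr ((hF x)^[n₀] ξ) ξ = 0)
    (hhit : cr ((hF x)^[j₀] q) ξ = 0) :
    ∀ j : ℕ, ∃ j' < j₀ + n₀, cr ((hF x)^[j] q) ((hF x)^[j'] q) = 0 := by
  have hj₀ : (hF x)^[j₀] q ≠ 0 := hx.iter_ne j₀ hq
  have h1 : cr ((hF x)^[n₀ + j₀] q) ((hF x)^[j₀] q) = 0 := by
    rw [Function.iterate_add_apply]
    refine cr_trans (hx.iter_ne n₀ hξ) (cr_iter x n₀ hj₀ hξ hhit) ?_
    refine cr_trans hξ hper ?_
    rw [cr_comm, hhit, neg_zero]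
  intro j
  induction j using Nat.strong_induction_on with
  | _ j ih =>
    rcases Nat.lt_or_ge j (j₀ + n₀) with h | h
    · exact ⟨j, h, cr_self _⟩
    · obtain ⟨t, rfl⟩ : ∃ t, j = t + (n₀ + j₀) := ⟨j - (n₀ + j₀), by omega⟩
      obtain ⟨j', hj', h2⟩ := ih (t + j₀) (by omega)
      refine ⟨j', hj', ?_⟩
      have h3 : cr ((hF x)^[t + (n₀ + j₀)] q) ((hF x)^[t + j₀] q) = 0 := by
        rw [Function.iterate_add_apply, Function.iterate_add_apply (hF x) t j₀]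
        exact cr_iter x t (hx.iter_ne _ hq) hj₀ h1
      exact cr_trans (hx.iter_ne _ hq) h3 h2

theorem dir_eq {ξ : ℂ} {q : ℂ × ℂ} (hq : q ≠ 0) (h : cr (ξ, 1) q = 0) : ξ = q.1 / q.2 := by
  unfold cr at h
  simp only [one_mul] at h
  have h2 : q.2 ≠ 0 := by
    intro h2
    rw [h2, mul_zero, zero_sub, neg_eq_zero] at h
    exact hq (Prod.ext h h2)
  rw [eq_div_iff h2]
  exact sub_eq_zero.1 h

/-- The periodic directions in one critical orbit are finite in number. -/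
theorem fin_orb {d : ℕ} {x : CV d} (hx : ND x) {q : ℂ × ℂ} (hq : q ≠ 0) :
    {ξ : ℂ | (∃ n : ℕ, 0 < n ∧ cr ((hF x)^[n] (ξ, 1)) (ξ, 1) = 0) ∧
      ∃ j, cr ((hF x)^[j] q) (ξ, 1) = 0}.Finite := by
  rcases Set.eq_empty_or_nonempty {ξ : ℂ | (∃ n : ℕ, 0 < n ∧ cr ((hF x)^[n] (ξ, 1)) (ξ, 1) = 0) ∧
      ∃ j, cr ((hF x)^[j] q) (ξ, 1) = 0} with h | h
  · rw [h]
    exact Set.finite_empty
  · obtain ⟨ξ₀, ⟨n₀, hn₀, hper⟩, j₀, hhit⟩ := h
    have h1 := orb_fin hx hq (one_ne ξ₀) hn₀ hper hhit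
    refine Set.Finite.subset (((Set.finite_Iio (j₀ + n₀)).image
      fun j => ((hF x)^[j] q).1 / ((hF x)^[j] q).2)) ?_
    rintro ξ ⟨-, j, hj⟩
    obtain ⟨j', hj', h2⟩ := h1 j
    refine ⟨j', hj', ?_⟩
    refine (dir_eq (hx.iter_ne j' hq) (cr_trans (hx.iter_ne j hq) ?_ h2)).symm
    rw [cr_comm, hj, neg_zero]

/-- **A repelling periodic point outside the critical orbits.** -/
theorem t_PER (h1 : Pool.Agent.H207.BT.S_RPL) (h2 : Pool.Agent.H207.BT.S_CNT)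
    (h3 : Pool.Agent.H211.HY.S_FACT) : Pool.Agent.H207.BT.S_PER := by
  intro d x hx hn
  obtain ⟨k, c, m, hfac⟩ := h3 d x hx.hd hn.1
  have hR := h1 d k x c m hx hn hfac
  have hC := h2 d x hx.hd hx.nd hR
  obtain ⟨E, hEdef⟩ : ∃ E : Set ℂ, E = {ξ | (∃ n : ℕ, 0 < n ∧
    cr ((hF x)^[n] (ξ, 1)) (ξ, 1) = 0) ∧ ∃ p : ℂ × ℂ, p ≠ 0 ∧ wr x p = 0 ∧
      ∃ j, cr ((hF x)^[j] p) (ξ, 1) = 0} := ⟨_, rfl⟩
  have hE : E.Finite := by
    refine Set.Finite.subset (Set.finite_iUnion fun i : Fin k => fin_orb hx.nd (one_ne (c i))) ?_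
    rw [hEdef]
    rintro ξ ⟨hper, p, hp, hw, j, hj⟩
    obtain ⟨i, hi⟩ := crit_dir hx.hd hn.1 hfac.fac hp hw
    refine Set.mem_iUnion.2 ⟨i, hper, j, ?_⟩
    refine cr_trans (hx.nd.iter_ne j hp) ?_ hj
    rw [cr_comm, cr_iter x j hp (one_ne (c i)) hi, neg_zero]
  obtain ⟨n, hn0, hcard⟩ : ∃ n : ℕ, 0 < n ∧ hE.toFinset.card < d ^ n := by
    refine ⟨hE.toFinset.card + 1, Nat.succ_pos _, ?_⟩
    have h4 : hE.toFinset.card + 1 < d ^ (hE.toFinset.card + 1) :=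
      Nat.lt_pow_self (lt_of_lt_of_le (by norm_num) hx.hd)
    omega
  obtain ⟨S, hS1, hS2⟩ := hC n hn0
  obtain ⟨ξ, hξS, hξE⟩ : ∃ ξ ∈ S, ξ ∉ hE.toFinset := by
    by_contra hcon
    push Not at hcon
    have h4 := Finset.card_le_card (show S ⊆ hE.toFinset from hcon)
    omega
  refine ⟨ξ, n, hn0, hS2 ξ hξS, hR (ξ, 1) n (one_ne ξ) hn0 (hS2 ξ hξS), ?_⟩
  intro p hp hw j hj
  refine hξE (hE.mem_toFinset.2 ?_)
  rw [hEdef]
  exact ⟨⟨n, hn0, hS2 ξ hξS⟩, p, hp, hw, j, hj⟩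

end Pool.Agent.H250.BT207
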